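import Pool.Agent.Helper17.IA.StV

/-!
# Project IA, module FFN: the final assembly
-/

set_option autoImplicit false

namespace Pool.Agent.Helper32.IA

open Finset Pool.Agent.Helper93.IA Pool.Agent.Helper17.IA

private theorem d1_add {n : ℕ} (A : Finset (Fin n × Fin n)) (a : Fin n) :
    d1 A a + m1 A univ a = n := by
  have h1 : d1 A a = (univ.filter fun b : Fin n => (a, b) ∈ A).card := by
    unfold d1
    refine Finset.card_bij' (fun e _ => e.2) (fun b _ => (a, b)) ?_ ?_ ?_ ?_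
    · rintro ⟨x, y⟩ h
      rw [mem_filter] at h
      obtain ⟨h1, h2⟩ := h
      rw [mem_filter]
      refine ⟨mem_univ _, ?_⟩
      dsimp only at h2 ⊢
      rw [← h2]
      exact h1
    · intro b h
      rw [mem_filter] at h
      rw [mem_filter]
      exact ⟨h.2, rfl⟩
    · rintro ⟨x, y⟩ h
      rw [mem_filter] at h
      obtain ⟨h1, h2⟩ := h
      dsimp only at h2 ⊢
      rw [h2]
    · intro b h
      rfl
  rw [h1]
  unfold m1
  rw [card_filter_add_card_filter_not]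
  simp

private theorem d2_add {n : ℕ} (A : Finset (Fin n × Fin n)) (a : Fin n) :
    d2 A a + m2 A univ a = n := by
  have h1 : d2 A a = (univ.filter fun b : Fin n => (b, a) ∈ A).card := by
    unfold d2
    refine Finset.card_bij' (fun e _ => e.1) (fun b _ => (b, a)) ?_ ?_ ?_ ?_
    · rintro ⟨x, y⟩ h
      rw [mem_filter] at h
      obtain ⟨h1, h2⟩ := h
      rw [mem_filter]
      refine ⟨mem_univ _, ?_⟩
      dsimp only at h2 ⊢
      rw [← h2]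
      exact h1
    · intro b h
      rw [mem_filter] at h
      rw [mem_filter]
      exact ⟨h.2, rfl⟩
    · rintro ⟨x, y⟩ h
      rw [mem_filter] at h
      obtain ⟨h1, h2⟩ := h
      dsimp only at h2 ⊢
      rw [h2]
    · intro b h
      rfl
  rw [h1]
  unfold m2
  rw [card_filter_add_card_filter_not]
  simp

private theorem cdp_mono {ξ g ε : ℝ} {n1 n0 : ℕ} (h : n1 ≤ n0) (hC : CDP ξ g ε n1) :
    CDP ξ g ε n0 := by
  intro α β γ _ _ _ _ _ _ κ n m A0 A B0 B C0 C U1 W1 U2 W2 U3 W3 h1 h2 h3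
  exact hC α β γ κ n m A0 A B0 B C0 C U1 W1 U2 W2 U3 W3 h1 h2 (h.trans h3)

theorem hFFN : StFFN := by
  intro hPKB hPKU hABF hFRM hFDC hFLL hex hABS hSUB hVOR hITR
  obtain ⟨ξ, g, ε, n1, hξ, hξ2, hg, hε, hCD⟩ := hex
  obtain ⟨N0, hN0⟩ := hVOR hSUB ξ ε hξ hξ2 hε
  obtain ⟨M, hM⟩ := hN0 (max n1 (max N0 1)) (by omega)
  have hCD' : CDP ξ g ε (max n1 (max N0 1)) := cdp_mono (by omega) hCD
  generalize hn0 : max n1 (max N0 1) = n0 at hM hCD'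
  have hn01 : 1 ≤ n0 := by omega
  refine ⟨max n0 (max (M + 1) (max (20 * (2 ^ (3 * (M * M)) * (11 * (M * M) + 1) +
    12 * (M * M) + 2)) ⌈((2 ^ (3 * (M * M)) * (36 * (M * M)) : ℕ) : ℝ) / g⌉₊)), ?_⟩
  intro n k hn hk A B C hreg
  have hnn0 : n0 ≤ n := by omega
  have hnM : M < n := by omega
  have hnX : 20 * (2 ^ (3 * (M * M)) * (11 * (M * M) + 1) + 12 * (M * M) + 2) ≤ n := by omega
  have hng : ((2 ^ (3 * (M * M)) * (36 * (M * M)) : ℕ) : ℝ) ≤ g * n := by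
    have h1 : ⌈((2 ^ (3 * (M * M)) * (36 * (M * M)) : ℕ) : ℝ) / g⌉₊ ≤ n := by omega
    have h2 := Nat.le_of_ceil_le h1
    rw [div_le_iff₀ hg] at h2
    linarith
  obtain ⟨ℓ, V, hch, hVM⟩ := hM n k A B C hnn0 hreg
  have hn1 : 0 < n := by omega
  have hnR : (0 : ℝ) < n := by exact_mod_cast hn1
  have hℓ : 1 ≤ ℓ := by
    by_contra hc
    have h0 : ℓ = 0 := by omega
    have h1 := hVM 0
    rw [h0, hch.zero 0, card_univ, Fintype.card_fin] at h1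
    omega
  have hVsub : ∀ i, 1 ≤ i → i ≤ ℓ → ∀ j, V i j ⊆ V 1 j := by
    intro i hi
    induction i, hi using Nat.le_induction with
    | base => exact fun _ _ => Subset.refl _
    | succ i hi ih =>
      intro h j
      exact (hch.sub i (by omega) j).trans (ih (by omega) j)
  have hV1 : ∀ j, 1000 * (V 1 j).card ≤ n := by
    intro j
    have h1 := hch.card 0 (by omega) j
    rw [hch.zero 0, card_univ, Fintype.card_fin, zero_add] at h1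
    rw [h1]
    have h2 : ((⌊ξ * (n : ℝ)⌋₊ : ℕ) : ℝ) ≤ ξ * n := Nat.floor_le (by positivity)
    have h3 : (1000 : ℝ) * ((⌊ξ * (n : ℝ)⌋₊ : ℕ) : ℝ) ≤ n := by nlinarith
    exact_mod_cast h3
  obtain ⟨𝓛, hLcard, hL⟩ := hFLL n M (V ℓ) hVM
  have hF0 : ∀ j, V 1 j ⊆ V 1 0 ∪ V 1 1 ∪ V 1 2 := by
    intro j x hx
    rw [mem_union, mem_union]
    fin_cases j
    · exact Or.inl (Or.inl hx)
    · exact Or.inl (Or.inr hx)
    · exact Or.inr hx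
  have hF0c : 1000 * (V 1 0 ∪ V 1 1 ∪ V 1 2).card ≤ 3 * n := by
    have h1 := card_union_le (V 1 0 ∪ V 1 1) (V 1 2)
    have h2 := card_union_le (V 1 0) (V 1 1)
    have h3 := hV1 0
    have h4 := hV1 1
    have h5 := hV1 2
    omega
  have hVF : ∀ j, V ℓ j ⊆ V 1 0 ∪ V 1 1 ∪ V 1 2 := fun j => (hVsub ℓ hℓ le_rfl j).trans (hF0 j)
  have hLp : ∀ L ∈ 𝓛, Bal L.1 L.2.1 L.2.2 ∧ L.1.card ≤ M * M ∧
      (∀ x ∈ L.1, x.1 ∈ V 1 0 ∪ V 1 1 ∪ V 1 2 ∧ x.2 ∈ V 1 0 ∪ V 1 1 ∪ V 1 2) ∧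
      (∀ x ∈ L.2.1, x.1 ∈ V 1 0 ∪ V 1 1 ∪ V 1 2 ∧ x.2 ∈ V 1 0 ∪ V 1 1 ∪ V 1 2) ∧
      ∀ x ∈ L.2.2, x.1 ∈ V 1 0 ∪ V 1 1 ∪ V 1 2 ∧ x.2 ∈ V 1 0 ∪ V 1 1 ∪ V 1 2 := by
    rintro ⟨LA, LB, LC⟩ hmem
    obtain ⟨h1, h2, h3, h4⟩ := (hL LA LB LC).1 hmem
    refine ⟨h1, ?_, fun x hx => ⟨hVF 0 (h2 x hx).1, hVF 1 (h2 x hx).2⟩,
      fun x hx => ⟨hVF 1 (h3 x hx).1, hVF 2 (h3 x hx).2⟩,
      fun x hx => ⟨hVF 2 (h4 x hx).1, hVF 0 (h4 x hx).2⟩⟩
    have h5 : LA ⊆ V ℓ 0 ×ˢ V ℓ 1 := fun x hx => mem_product.2 (h2 x hx)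
    have h6 := card_le_card h5
    rw [card_product] at h6
    exact h6.trans (Nat.mul_le_mul (hVM 0) (hVM 1))
  have hregle : ∀ i, m1 A univ i ≤ k ∧ m2 A univ i ≤ k ∧ m1 B univ i ≤ k ∧ m2 B univ i ≤ k ∧
      m1 C univ i ≤ k ∧ m2 C univ i ≤ k := by
    intro i
    obtain ⟨h1, h2, h3, h4, h5, h6⟩ := hreg i
    exact ⟨h1.le, h2.le, h3.le, h4.le, h5.le, h6.le⟩
  have hineq : 4 * k + (V 1 0 ∪ V 1 1 ∪ V 1 2).card + 𝓛.card * (11 * (M * M) + 1) +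
      12 * (M * M) + 2 ≤ n := by
    have h1 := Nat.mul_le_mul_right (11 * (M * M) + 1) hLcard
    omega
  obtain ⟨XA, XB, XC, hX, hXd⟩ := hABF hABS n k (M * M) A B C (V 1 0 ∪ V 1 1 ∪ V 1 2) 𝓛
    hregle hLp hineq
  have hBal : Bal A B C := by
    refine ⟨fun a => ?_, fun a => ?_, fun a => ?_⟩ <;>
    · obtain ⟨h1, h2, h3, h4, h5, h6⟩ := hreg a
      have e1 := d1_add A a
      have e2 := d2_add A a
      have e3 := d1_add B a
      have e4 := d2_add B a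
      have e5 := d1_add C a
      have e6 := d2_add C a
      omega
  have hcard36 : ((𝓛.card * (36 * (M * M)) : ℕ) : ℝ) ≤ g * n := by
    refine le_trans ?_ hng
    exact_mod_cast Nat.mul_le_mul_right (36 * (M * M)) hLcard
  obtain ⟨hb', hsA, hsB, hsC, hiA, hiB, hiC⟩ := hFRM hPKB hPKU n (M * M) (g * n) A B C
    (V 1 0 ∪ V 1 1 ∪ V 1 2) _ 𝓛 XA XB XC (V 1) hBal hF0
    (fun L hL => by
      obtain ⟨h1, h2, h3, h4, h5, h6, h7, h8, h9⟩ := hX L hL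
      exact ⟨h1, h2, h3, h4, h6, h7, h8, h9⟩) hXd hcard36
  have hκ : ((k : ℝ) / n) ≤ 20 / 97 := by
    rw [div_le_div_iff₀ hnR (by norm_num)]
    have h1 : (97 : ℝ) * k ≤ 20 * n := by exact_mod_cast hk
    linarith
  obtain ⟨P, hP, hPA, hPB, hPC⟩ := hITR ξ g ε n0 hξ hξ2 hg hε hCD' n ℓ ((k : ℝ) / n) A B C
    (A \ 𝓛.biUnion XA) (B \ 𝓛.biUnion XB) (C \ 𝓛.biUnion XC) V hℓ (by positivity) hκ hch
    sdiff_subset sdiff_subset sdiff_subset hb' hsA hsB hsC hiA hiB hiC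
  refine hFDC hPKU n A B C 𝓛 XA XB XC P (fun L hL => ?_) hXd hP ?_
  · obtain ⟨h1, h2, h3, h4, h5, h6, h7, h8, h9⟩ := hX L hL
    exact ⟨h1, h2, h3, h4, h5⟩
  · rw [hL]
    refine ⟨(hPKB _ _ _).1 _ _ _ P hP hb', fun x hx => ?_, fun x hx => ?_, fun x hx => ?_⟩
    · exact (mem_filter.1 (hPA hx)).2
    · exact (mem_filter.1 (hPB hx)).2
    · exact (mem_filter.1 (hPC hx)).2

end Pool.Agent.Helper32.IA
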